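import Mathlib

set_option autoImplicit false

namespace Pool.Agent.Results.MP_e2f694_an.Counter

open scoped TensorProduct
open UniversalEnvelopingAlgebra

section Envelope

/-- A copy of `A`, to carry the uniform structure of all submultiplicative seminorms. -/
def AM (A : Type) : Type := A

/-- The submultiplicative seminorms on `A`. -/
def SM (A : Type) [Ring A] [Algebra ℂ A] : Type :=
  {p : Seminorm ℂ A // ∀ a b : A, p (a * b) ≤ p a * p b}

variable {A B : Type} [Ring A] [Algebra ℂ A] [Ring B] [Algebra ℂ B]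

instance amRing : Ring (AM A) := inferInstanceAs (Ring A)

instance amAlgebra : Algebra ℂ (AM A) := inferInstanceAs (Algebra ℂ A)

/-- `A` with the pseudometric `p (x - y)`. -/
@[reducible] noncomputable def SM.grp (p : SM A) : SeminormedAddCommGroup (AM A) :=
  p.1.toAddGroupSeminorm.toSeminormedAddCommGroup

/-- The uniform structure defined by the family of all submultiplicative seminorms. -/
noncomputable instance amUniform : UniformSpace (AM A) :=
  ⨅ p : SM A, p.grp.toPseudoMetricSpace.toUniformSpace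

instance amUAG : IsUniformAddGroup (AM A) :=
  isUniformAddGroup_iInf fun p => @SeminormedAddCommGroup.to_isUniformAddGroup _ (SM.grp p)

theorem am_top : (amUniform : UniformSpace (AM A)).toTopologicalSpace =
    ⨅ p : SM A, p.grp.toPseudoMetricSpace.toUniformSpace.toTopologicalSpace :=
  UniformSpace.toTopologicalSpace_iInf

instance amMul : ContinuousMul (AM A) := by
  rw [am_top]
  refine continuousMul_iInf fun p => ?_
  letI : NonUnitalSeminormedRing (AM A) :=
    { p.grp, (amRing : Ring (AM A)) with norm_mul_le := p.2 }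
  exact NonUnitalSeminormedRing.toContinuousMul

instance amTopRing : IsTopologicalRing (AM A) where

instance amSMul : UniformContinuousConstSMul ℂ (AM A) :=
  ⟨fun c => by
    have : (fun x : AM A => c • x) = fun x => algebraMap ℂ (AM A) c • x := by
      funext x; rw [Algebra.smul_def]; rfl
    rw [this]
    exact uniformContinuous_const_smul _⟩

/-- The Arens-Michael envelope: the (separated) completion. -/
abbrev Env (A : Type) [Ring A] [Algebra ℂ A] : Type := UniformSpace.Completion (AM A)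

/-- The continuous extension of a map to the envelopes. -/
noncomputable def ext (f : A → B) : Env A → Env B :=
  UniformSpace.Completion.map (α := AM A) (β := AM B) f

/-- The envelope of `H ⊗ H`, realising the completed tensor square of the envelope of `H`. -/
abbrev Env2 (H : Type) [Ring H] [Algebra ℂ H] : Type := Env (H ⊗[ℂ] H)

/-- The extension of `a ↦ a ⊗ 1`. -/
noncomputable def inlE (H : Type) [Ring H] [Algebra ℂ H] : Env H → Env2 H :=
  ext (fun a : H => a ⊗ₜ[ℂ] (1 : H))

/-- The extension of `a ↦ 1 ⊗ a`. -/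
noncomputable def inrE (H : Type) [Ring H] [Algebra ℂ H] : Env H → Env2 H :=
  ext (fun a : H => (1 : H) ⊗ₜ[ℂ] a)

/-- The extended comultiplication. -/
noncomputable def comulE (H : Type) [Ring H] [HopfAlgebra ℂ H] : Env H → Env2 H :=
  ext (Coalgebra.comul (R := ℂ) (A := H))

/-- The extended counit. -/
noncomputable def counitE (H : Type) [Ring H] [HopfAlgebra ℂ H] : Env H → Env ℂ :=
  ext (Coalgebra.counit (R := ℂ) (A := H))

/-- The extended antipode. -/
noncomputable def antipodeE (H : Type) [Ring H] [HopfAlgebra ℂ H] : Env H → Env H :=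
  ext (HopfAlgebra.antipode ℂ (A := H))

/-- Topological algebra isomorphisms between envelopes. -/
def TopIso (A B : Type) [Ring A] [Algebra ℂ A] [Ring B] [Algebra ℂ B] : Type :=
  {F : Env A ≃ₐ[ℂ] Env B // Continuous F ∧ Continuous F.symm}

/-- The underlying map of a topological algebra isomorphism. -/
noncomputable def TopIso.fn (F : TopIso A B) : Env A → Env B := F.1

/-- The envelopes of `H₁` and `H₂` are isomorphic as topological Hopf algebras. -/
def EnvIso (H₁ H₂ : Type) [Ring H₁] [HopfAlgebra ℂ H₁] [Ring H₂] [HopfAlgebra ℂ H₂] : Prop :=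
  ∃ (F : TopIso H₁ H₂) (G : TopIso (H₁ ⊗[ℂ] H₁) (H₂ ⊗[ℂ] H₂)),
    (∀ x, G.fn (inlE H₁ x) = inlE H₂ (F.fn x)) ∧
    (∀ x, G.fn (inrE H₁ x) = inrE H₂ (F.fn x)) ∧
    (∀ x, G.fn (comulE H₁ x) = comulE H₂ (F.fn x)) ∧
    (∀ x, counitE H₂ (F.fn x) = counitE H₁ x) ∧
    (∀ x, F.fn (antipodeE H₁ x) = antipodeE H₂ (F.fn x))

noncomputable def io (a : A) : Env A := ((show AM A from a) : UniformSpace.Completion (AM A))

theorem io_mul (a b : A) : io (a * b) = io a * io b :=
  UniformSpace.Completion.coe_mul (α := AM A) a b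

theorem io_add (a b : A) : io (a + b) = io a + io b :=
  UniformSpace.Completion.coe_add (α := AM A) a b

theorem uc (f : A →ₗ[ℂ] B) (hf : ∀ q : SM B, ∀ a b, q.1 (f (a * b)) ≤ q.1 (f a) * q.1 (f b)) :
    @UniformContinuous (AM A) (AM B) _ _ f := by
  refine uniformContinuous_iInf_rng.2 fun q => ?_
  refine uniformContinuous_iInf_dom (i := (⟨q.1.comp f, hf q⟩ : SM A)) ?_
  letI := SM.grp (⟨q.1.comp f, hf q⟩ : SM A)
  letI := SM.grp q
  refine Isometry.uniformContinuous (α := AM A) (β := AM B)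
    (Isometry.of_dist_eq (α := AM A) (β := AM B) fun x y => ?_)
  rw [dist_eq_norm, dist_eq_norm]
  exact congrArg q.1 (f.map_sub x y).symm

theorem uch (f : A →ₐ[ℂ] B) : @UniformContinuous (AM A) (AM B) _ _ f :=
  uc f.toLinearMap fun q a b => by
    change q.1 (f (a * b)) ≤ q.1 (f a) * q.1 (f b)
    rw [map_mul]; exact q.2 _ _

theorem ext_io {f : A → B} (hf : @UniformContinuous (AM A) (AM B) _ _ f) (a : A) :
    ext f (io a) = io (f a) :=
  UniformSpace.Completion.map_coe (α := AM A) (β := AM B) hf a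

theorem ext_cont (f : A → B) : Continuous (ext f) :=
  UniformSpace.Completion.continuous_map (α := AM A) (β := AM B)

theorem env_ext {u v : Env A → Env B} (hu : Continuous u) (hv : Continuous v)
    (h : ∀ a : A, u (io a) = v (io a)) (x : Env A) : u x = v x :=
  UniformSpace.Completion.ext' hu hv h x

theorem io_eq {a b : A} (h : ∀ p : SM A, p.1 (a - b) = 0) : io a = io b := by
  have h1 : @Inseparable (AM A) _ a b := by
    unfold Inseparable
    rw [am_top, nhds_iInf, nhds_iInf]
    refine iInf_congr fun p => ?_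
    letI := SM.grp p
    refine (Metric.inseparable_iff (α := AM A)).2 ?_
    rw [dist_eq_norm]
    exact h p
  exact (h1.map (UniformSpace.Completion.continuous_coe (AM A))).eq

noncomputable def envEquiv (f : A →ₐ[ℂ] B) (g : B →ₐ[ℂ] A) (hgf : ∀ a, io (g (f a)) = io a)
    (hfg : ∀ b, io (f (g b)) = io b) : Env A ≃ₐ[ℂ] Env B :=
  { UniformSpace.Completion.mapRingHom (α := AM A) (β := AM B) f.toRingHom (uch f).continuous with
    toFun := ext f
    invFun := ext g
    left_inv := env_ext ((ext_cont g).comp (ext_cont f)) continuous_id fun a => by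
      rw [ext_io (uch f), ext_io (uch g), hgf]
    right_inv := env_ext ((ext_cont f).comp (ext_cont g)) continuous_id fun a => by
      rw [ext_io (uch g), ext_io (uch f), hfg]
    commutes' := fun r => by
      have h1 := ext_io (uch f) (algebraMap ℂ A r)
      rw [f.commutes] at h1
      exact h1 }

theorem io_tensor (k : A →ₐ[ℂ] A) (hk : ∀ a, io (k a) = io a) (t : A ⊗[ℂ] A) :
    io (Algebra.TensorProduct.map k k t) = io t := by
  induction t using TensorProduct.induction_on with
  | zero => rw [map_zero]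
  | add s t hs ht => rw [map_add, io_add, io_add, hs, ht]
  | tmul a b =>
    have hl := ext_io (uch (Algebra.TensorProduct.includeLeft : A →ₐ[ℂ] A ⊗[ℂ] A))
    have hr := ext_io (uch (Algebra.TensorProduct.includeRight : A →ₐ[ℂ] A ⊗[ℂ] A))
    have key : ∀ x y : A, io (x ⊗ₜ[ℂ] y) =
        ext (Algebra.TensorProduct.includeLeft : A →ₐ[ℂ] A ⊗[ℂ] A) (io x) *
          ext (Algebra.TensorProduct.includeRight : A →ₐ[ℂ] A ⊗[ℂ] A) (io y) := by
      intro x y
      rw [hl, hr, ← io_mul]
      simp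
    rw [Algebra.TensorProduct.map_tmul, key, key, hk, hk]

theorem envIso_of {H₁ H₂ : Type} [Ring H₁] [HopfAlgebra ℂ H₁] [Ring H₂] [HopfAlgebra ℂ H₂]
    (f : H₁ →ₐ[ℂ] H₂) (g : H₂ →ₐ[ℂ] H₁) (hgf : ∀ a, io (g (f a)) = io a)
    (hfg : ∀ b, io (f (g b)) = io b)
    (hd : ∀ a, Algebra.TensorProduct.map f f (Coalgebra.comul (R := ℂ) a) =
      Coalgebra.comul (R := ℂ) (f a))
    (he : ∀ a, Coalgebra.counit (R := ℂ) (f a) = Coalgebra.counit (R := ℂ) a)
    (hs : ∀ a, f (HopfAlgebra.antipode ℂ a) = HopfAlgebra.antipode ℂ (f a)) : EnvIso H₁ H₂ := by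
  have hS : ∀ (H : Type) [Ring H] [HopfAlgebra ℂ H],
      @UniformContinuous (AM H) (AM H) _ _ (HopfAlgebra.antipode ℂ (A := H)) := by
    intro H _ _
    refine uc _ fun q a b => ?_
    rw [HopfAlgebra.antipode_mul_antidistrib, mul_comm (q.1 _)]
    exact q.2 _ _
  refine ⟨⟨envEquiv f g hgf hfg, ext_cont _, ext_cont _⟩,
    ⟨envEquiv (Algebra.TensorProduct.map f f) (Algebra.TensorProduct.map g g) (fun t => ?_)
      (fun t => ?_), ext_cont _, ext_cont _⟩, ?_, ?_, ?_, ?_, ?_⟩
  · have := io_tensor (g.comp f) hgf t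
    rw [Algebra.TensorProduct.map_comp] at this
    exact this
  · have := io_tensor (f.comp g) hfg t
    rw [Algebra.TensorProduct.map_comp] at this
    exact this
  · refine env_ext ((ext_cont _).comp (ext_cont _)) ((ext_cont _).comp (ext_cont _)) fun a => ?_
    change ext (Algebra.TensorProduct.map f f)
        (ext (Algebra.TensorProduct.includeLeft : H₁ →ₐ[ℂ] H₁ ⊗[ℂ] H₁) (io a)) =
      ext (Algebra.TensorProduct.includeLeft : H₂ →ₐ[ℂ] H₂ ⊗[ℂ] H₂) (ext f (io a))
    simp only [ext_io (uch _)]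
    simp
  · refine env_ext ((ext_cont _).comp (ext_cont _)) ((ext_cont _).comp (ext_cont _)) fun a => ?_
    change ext (Algebra.TensorProduct.map f f)
        (ext (Algebra.TensorProduct.includeRight : H₁ →ₐ[ℂ] H₁ ⊗[ℂ] H₁) (io a)) =
      ext (Algebra.TensorProduct.includeRight : H₂ →ₐ[ℂ] H₂ ⊗[ℂ] H₂) (ext f (io a))
    simp only [ext_io (uch _)]
    simp
  · refine env_ext ((ext_cont _).comp (ext_cont _)) ((ext_cont _).comp (ext_cont _)) fun a => ?_
    change ext (Algebra.TensorProduct.map f f) (ext (Bialgebra.comulAlgHom ℂ H₁) (io a)) =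
      ext (Bialgebra.comulAlgHom ℂ H₂) (ext f (io a))
    simp only [ext_io (uch _)]
    exact congrArg io (hd a)
  · refine env_ext ((ext_cont _).comp (ext_cont _)) (ext_cont _) fun a => ?_
    change ext (Bialgebra.counitAlgHom ℂ H₂) (ext f (io a)) =
      ext (Bialgebra.counitAlgHom ℂ H₁) (io a)
    simp only [ext_io (uch _)]
    exact congrArg io (he a)
  · refine env_ext ((ext_cont _).comp (ext_cont _)) ((ext_cont _).comp (ext_cont _)) fun a => ?_
    change ext f (ext (HopfAlgebra.antipode ℂ (A := H₁)) (io a)) =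
      ext (HopfAlgebra.antipode ℂ (A := H₂)) (ext f (io a))
    rw [ext_io (hS H₁), ext_io (uch f), ext_io (uch f), ext_io (hS H₂), hs]

end Envelope

attribute [local instance 100] LieRing.ofAssociativeRing

section General

variable {L : Type} [LieRing L] [LieAlgebra ℂ L]

abbrev U (L : Type) [LieRing L] [LieAlgebra ℂ L] : Type := UniversalEnvelopingAlgebra ℂ L

noncomputable def j : L →ₗ[ℂ] U L := (ι ℂ : L →ₗ⁅ℂ⁆ U L).toLinearMap

theorem j_lie (x y : L) : j ⁅x, y⁆ = j x * j y - j y * j x := by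
  have := (ι ℂ : L →ₗ⁅ℂ⁆ U L).map_lie x y
  rw [LieRing.of_associative_ring_bracket] at this
  exact this

noncomputable def mkHom {A : Type} [Ring A] [Algebra ℂ A] (f : L →ₗ[ℂ] A)
    (hf : ∀ x y, f ⁅x, y⁆ = f x * f y - f y * f x) : U L →ₐ[ℂ] A :=
  lift ℂ { f with map_lie' := fun {x y} => hf x y }

theorem mkHom_j {A : Type} [Ring A] [Algebra ℂ A] (f : L →ₗ[ℂ] A)
    (hf : ∀ x y, f ⁅x, y⁆ = f x * f y - f y * f x) (x : L) : mkHom f hf (j x) = f x :=
  lift_ι_apply ℂ _ x

theorem uext {A : Type} [Ring A] [Algebra ℂ A] (g₁ g₂ : U L →ₐ[ℂ] A)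
    (h : ∀ x, g₁ (j x) = g₂ (j x)) : g₁ = g₂ := by
  apply UniversalEnvelopingAlgebra.hom_ext
  ext x
  exact h x

theorem uind (P : Subalgebra ℂ (U L)) (h : ∀ x, j x ∈ P) (a : U L) : a ∈ P := by
  let f : L →ₗ[ℂ] P := LinearMap.codRestrict P.toSubmodule j h
  have hf : ∀ x y, f ⁅x, y⁆ = f x * f y - f y * f x := fun x y => Subtype.ext (j_lie x y)
  have h1 : P.val.comp (mkHom f hf) = AlgHom.id ℂ (U L) := by
    apply uext
    intro x
    rw [AlgHom.comp_apply, mkHom_j]
    rfl
  have h2 : P.val (mkHom f hf a) = a := by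
    have := congrArg (fun g : U L →ₐ[ℂ] U L => g a) h1
    exact this
  rw [← h2]
  exact (mkHom f hf a).2

noncomputable def cmL : L →ₗ[ℂ] U L ⊗[ℂ] U L :=
  ((TensorProduct.mk ℂ (U L) (U L)).flip 1) ∘ₗ j + (TensorProduct.mk ℂ (U L) (U L) 1) ∘ₗ j

theorem cmL_apply (x : L) : cmL x = j x ⊗ₜ[ℂ] (1 : U L) + (1 : U L) ⊗ₜ[ℂ] j x := rfl

noncomputable def cm : U L →ₐ[ℂ] U L ⊗[ℂ] U L :=
  mkHom cmL (fun x y => by
    simp only [cmL_apply, j_lie, add_mul, mul_add, Algebra.TensorProduct.tmul_mul_tmul, mul_one,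
      one_mul, TensorProduct.sub_tmul, TensorProduct.tmul_sub]
    abel)

theorem cm_j (x : L) : cm (j x) = j x ⊗ₜ[ℂ] (1 : U L) + (1 : U L) ⊗ₜ[ℂ] j x := mkHom_j _ _ x

noncomputable def cu : U L →ₐ[ℂ] ℂ := mkHom (0 : L →ₗ[ℂ] ℂ) (fun x y => by simp)

theorem cu_j (x : L) : cu (j x) = 0 := mkHom_j _ _ x

noncomputable def anL : L →ₗ[ℂ] (U L)ᵐᵒᵖ :=
  -((MulOpposite.opLinearEquiv ℂ : U L ≃ₗ[ℂ] (U L)ᵐᵒᵖ).toLinearMap ∘ₗ j)

theorem anL_apply (x : L) : anL x = - MulOpposite.op (j x) := rfl

noncomputable def anH : U L →ₐ[ℂ] (U L)ᵐᵒᵖ :=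
  mkHom anL (fun x y => by
    simp only [anL_apply, j_lie, neg_mul_neg, MulOpposite.op_sub, MulOpposite.op_mul]
    abel)

noncomputable def an : U L →ₗ[ℂ] U L :=
  (MulOpposite.opLinearEquiv ℂ : U L ≃ₗ[ℂ] (U L)ᵐᵒᵖ).symm.toLinearMap ∘ₗ anH.toLinearMap

theorem an_apply (a : U L) : an a = MulOpposite.unop (anH a) := rfl

theorem an_mul (a b : U L) : an (a * b) = an b * an a := by
  simp only [an_apply, map_mul, MulOpposite.unop_mul]

theorem an_one : an (1 : U L) = 1 := by
  simp only [an_apply, map_one, MulOpposite.unop_one]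

theorem an_j (x : L) : an (j x) = - j x := by
  rw [an_apply, anH, mkHom_j, anL_apply]
  rfl

@[reducible] noncomputable def bi : Bialgebra ℂ (U L) :=
  Bialgebra.ofAlgHom cm cu
    (by
      apply uext
      intro x
      simp [cm_j, Algebra.TensorProduct.one_def, TensorProduct.add_tmul, TensorProduct.tmul_add,
        add_assoc])
    (by
      apply uext
      intro x
      simp [cm_j, cu_j])
    (by
      apply uext
      intro x
      simp [cm_j, cu_j])

theorem left_key (b : U L) : ∀ t : U L ⊗[ℂ] U L,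
    LinearMap.mul' ℂ (U L) (an.rTensor (U L) (cm b * t)) =
      cu b • LinearMap.mul' ℂ (U L) (an.rTensor (U L) t) := by
  let P : Subalgebra ℂ (U L) :=
    { carrier := {b | ∀ t : U L ⊗[ℂ] U L,
        LinearMap.mul' ℂ (U L) (an.rTensor (U L) (cm b * t)) =
          cu b • LinearMap.mul' ℂ (U L) (an.rTensor (U L) t)}
      mul_mem' := fun {a b} ha hb t => by
        rw [map_mul cm, mul_assoc, ha, hb, map_mul cu, mul_smul]
      add_mem' := fun {a b} ha hb t => by
        rw [map_add, add_mul, map_add, map_add, ha, hb, map_add, add_smul]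
      algebraMap_mem' := fun r t => by
        rw [AlgHom.commutes, AlgHom.commutes, ← Algebra.smul_def, map_smul, map_smul]
        rfl }
  refine uind P (fun x t => ?_) b
  rw [cm_j, cu_j, zero_smul]
  induction t using TensorProduct.induction_on with
  | zero => simp
  | tmul u v => simp [add_mul, an_mul, an_j, mul_assoc]
  | add s t hs ht => rw [mul_add, map_add, map_add, hs, ht, add_zero]

theorem right_key (b : U L) : ∀ t : U L ⊗[ℂ] U L,
    LinearMap.mul' ℂ (U L) (an.lTensor (U L) (t * cm b)) =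
      cu b • LinearMap.mul' ℂ (U L) (an.lTensor (U L) t) := by
  let P : Subalgebra ℂ (U L) :=
    { carrier := {b | ∀ t : U L ⊗[ℂ] U L,
        LinearMap.mul' ℂ (U L) (an.lTensor (U L) (t * cm b)) =
          cu b • LinearMap.mul' ℂ (U L) (an.lTensor (U L) t)}
      mul_mem' := fun {a b} ha hb t => by
        rw [map_mul cm, ← mul_assoc, hb, ha, map_mul cu, mul_comm (cu a), mul_smul]
      add_mem' := fun {a b} ha hb t => by
        rw [map_add, mul_add, map_add, map_add, ha, hb, map_add, add_smul]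
      algebraMap_mem' := fun r t => by
        rw [AlgHom.commutes, AlgHom.commutes, ← Algebra.commutes, ← Algebra.smul_def, map_smul,
          map_smul]
        rfl }
  refine uind P (fun x t => ?_) b
  rw [cm_j, cu_j, zero_smul]
  induction t using TensorProduct.induction_on with
  | zero => simp
  | tmul u v => simp [mul_add, an_mul, an_j, mul_assoc]
  | add s t hs ht => rw [add_mul, map_add, map_add, hs, ht, add_zero]

@[reducible] noncomputable def hopf : HopfAlgebra ℂ (U L) :=
  { bi with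
    antipode := an
    mul_antipode_rTensor_comul := by
      apply LinearMap.ext
      intro b
      have := left_key b 1
      rw [mul_one, Algebra.TensorProduct.one_def, LinearMap.rTensor_tmul, an_one,
        LinearMap.mul'_apply, mul_one, ← Algebra.algebraMap_eq_smul_one] at this
      exact this
    mul_antipode_lTensor_comul := by
      apply LinearMap.ext
      intro b
      have := right_key b 1
      rw [one_mul, Algebra.TensorProduct.one_def, LinearMap.lTensor_tmul, an_one,
        LinearMap.mul'_apply, mul_one, ← Algebra.algebraMap_eq_smul_one] at this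
      exact this }

end General

abbrev E : Type := Module.End ℂ (ℤ → ℂ)

noncomputable def e (n : ℤ) : E where
  toFun f := fun k => (k : ℂ) * f (k + n)
  map_add' f g := by funext k; simp [mul_add]
  map_smul' c f := by funext k; simp; ring

theorem e_lie (m n : ℤ) : ⁅e m, e n⁆ = ((m - n : ℤ) : ℂ) • e (m + n) := by
  rw [LieRing.of_associative_ring_bracket]
  apply LinearMap.ext
  intro f
  funext k
  simp only [e, LinearMap.sub_apply, Module.End.mul_apply, LinearMap.coe_mk, AddHom.coe_mk,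
    Pi.sub_apply, LinearMap.smul_apply, Pi.smul_apply, smul_eq_mul]
  rw [show k + n + m = k + (m + n) by ring, show k + m + n = k + (m + n) by ring]
  push_cast
  ring

def gens : Set E := {e (-1), e 0, e 1, e 2}

noncomputable abbrev W : LieSubalgebra ℂ E := LieSubalgebra.lieSpan ℂ E gens

theorem gens_mem (x : E) (hx : x ∈ gens) : x ∈ W := LieSubalgebra.subset_lieSpan hx

theorem e_mem2 (n : ℕ) : e ((n : ℤ) + 2) ∈ W := by
  induction n with
  | zero => exact gens_mem _ (by simp [gens])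
  | succ n ih =>
    have h1 : ⁅e 1, e ((n : ℤ) + 2)⁆ ∈ W := W.lie_mem (gens_mem _ (by simp [gens])) ih
    rw [e_lie] at h1
    have hne : (((1 - ((n : ℤ) + 2) : ℤ)) : ℂ) ≠ 0 := by
      rw [Int.cast_ne_zero]; omega
    have h2 := W.smul_mem (((1 - ((n : ℤ) + 2) : ℤ) : ℂ)⁻¹) h1
    rw [smul_smul, inv_mul_cancel₀ hne, one_smul] at h2
    rw [show ((n + 1 : ℕ) : ℤ) + 2 = 1 + ((n : ℤ) + 2) by push_cast; ring]
    exact h2

theorem e_mem (n : ℕ) : e (n : ℤ) ∈ W := by
  match n with
  | 0 => exact gens_mem _ (by simp [gens])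
  | 1 => exact gens_mem _ (by simp [gens])
  | n + 2 =>
    have := e_mem2 n
    rw [show ((n + 2 : ℕ) : ℤ) = (n : ℤ) + 2 by push_cast; ring]
    exact this

noncomputable def w (n : ℕ) : W := ⟨e n, e_mem n⟩

noncomputable def d : W := ⟨e (-1), gens_mem _ (by simp [gens])⟩

theorem lie0 (n : ℕ) : ⁅w 0, w n⁆ = (-(n : ℂ)) • w n := by
  apply Subtype.ext
  change ⁅e ((0 : ℕ) : ℤ), e (n : ℤ)⁆ = (-(n : ℂ)) • e (n : ℤ)
  rw [e_lie]
  simp

theorem lied (n : ℕ) : ⁅d, w (n + 1)⁆ = (-((n : ℂ) + 2)) • w n := by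
  apply Subtype.ext
  change ⁅e (-1), e ((n + 1 : ℕ) : ℤ)⁆ = (-((n : ℂ) + 2)) • e (n : ℤ)
  rw [e_lie, show (-1 : ℤ) + ((n + 1 : ℕ) : ℤ) = (n : ℤ) by push_cast; ring]
  congr 1
  push_cast
  ring

theorem ft : Algebra.FiniteType ℂ (U W) := by
  classical
  refine ⟨⟨{j d, j (w 0), j (w 1), j (w 2)}, ?_⟩⟩
  rw [eq_top_iff]
  intro a _
  refine uind _ (fun x => ?_) a
  obtain ⟨x, hx⟩ := x
  induction hx using LieSubalgebra.lieSpan_induction with
  | mem y hy =>
    apply Algebra.subset_adjoin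
    simp only [gens, Set.mem_insert_iff, Set.mem_singleton_iff] at hy
    simp only [Finset.coe_insert, Finset.coe_singleton, Set.mem_insert_iff, Set.mem_singleton_iff]
    rcases hy with rfl | rfl | rfl | rfl
    · left; rfl
    · right; left; rfl
    · right; right; left; rfl
    · right; right; right; rfl
  | zero =>
    have : j (⟨0, W.zero_mem⟩ : W) = 0 := map_zero j
    exact this ▸ Subalgebra.zero_mem _
  | add x y hx hy ihx ihy =>
    have : j (⟨x + y, W.add_mem hx hy⟩ : W) = j (⟨x, hx⟩ : W) + j (⟨y, hy⟩ : W) :=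
      map_add j (⟨x, hx⟩ : W) ⟨y, hy⟩
    exact this ▸ Subalgebra.add_mem _ ihx ihy
  | smul c x hx ihx =>
    have : j (⟨c • x, W.smul_mem c hx⟩ : W) = c • j (⟨x, hx⟩ : W) :=
      map_smul j c (⟨x, hx⟩ : W)
    exact this ▸ Subalgebra.smul_mem _ ihx c
  | lie x y hx hy ihx ihy =>
    have : j (⟨⁅x, y⁆, W.lie_mem hx hy⟩ : W) =
        j (⟨x, hx⟩ : W) * j (⟨y, hy⟩ : W) - j (⟨y, hy⟩ : W) * j (⟨x, hx⟩ : W) :=
      j_lie (⟨x, hx⟩ : W) ⟨y, hy⟩
    exact this ▸ Subalgebra.sub_mem _ (Subalgebra.mul_mem _ ihx ihy) (Subalgebra.mul_mem _ ihy ihx)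

theorem w0_ne : j (w 0) ≠ 0 := by
  intro h
  let f : W →ₗ[ℂ] E := W.toSubmodule.subtype
  have hf : ∀ x y : W, f ⁅x, y⁆ = f x * f y - f y * f x := fun x y => rfl
  have h1 := mkHom_j f hf (w 0)
  rw [h, map_zero] at h1
  have h2 : (0 : E) (fun _ => 1) 1 = e 0 (fun _ => 1) 1 := by
    rw [h1]; rfl
  simp [e] at h2

theorem killed (p : Seminorm ℂ (U W)) (hp : ∀ a b, p (a * b) ≤ p a * p b) : p (j (w 0)) = 0 := by
  have hb : ∀ x y : W, p (j ⁅x, y⁆) ≤ 2 * p (j x) * p (j y) := by
    intro x y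
    rw [j_lie]
    have h1 := map_sub_le_add p (j x * j y) (j y * j x)
    have h2 := hp (j x) (j y)
    have h3 := hp (j y) (j x)
    nlinarith
  have hdown : ∀ n : ℕ, p (j (w (n + 1))) = 0 → p (j (w n)) = 0 := by
    intro n h
    have h1 := hb d (w (n + 1))
    rw [h, mul_zero, lied, map_smul, map_smul_eq_mul, norm_neg] at h1
    have h2 : ‖(n : ℂ) + 2‖ = (n : ℝ) + 2 := by
      have : ((n : ℂ) + 2) = ((n + 2 : ℕ) : ℂ) := by push_cast; ring
      rw [this, Complex.norm_natCast]; push_cast; ring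
    rw [h2] at h1
    have h3 := apply_nonneg p (j (w n))
    have h4 : (0 : ℝ) ≤ n := Nat.cast_nonneg n
    nlinarith
  have hall : ∀ n : ℕ, p (j (w n)) = 0 → p (j (w 0)) = 0 := by
    intro n
    induction n with
    | zero => exact id
    | succ n ih => exact fun h => ih (hdown n h)
  obtain ⟨N, hN⟩ := exists_nat_gt (2 * p (j (w 0)))
  apply hall N
  have h1 := hb (w 0) (w N)
  rw [lie0, map_smul, map_smul_eq_mul, norm_neg, Complex.norm_natCast] at h1
  have h3 := apply_nonneg p (j (w N))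
  nlinarith

theorem killed_all (p : Seminorm ℂ (U W)) (hp : ∀ a b, p (a * b) ≤ p a * p b) (x : W) :
    p (j x) = 0 := by
  have h0 := killed p hp
  have hb : ∀ x y : W, p (j ⁅x, y⁆) ≤ 2 * p (j x) * p (j y) := by
    intro x y
    rw [j_lie]
    have h1 := map_sub_le_add p (j x * j y) (j y * j x)
    have h2 := hp (j x) (j y)
    have h3 := hp (j y) (j x)
    nlinarith
  have hw : ∀ n : ℕ, p (j (w (n + 1))) = 0 := by
    intro n
    have h1 := hb (w 0) (w (n + 1))
    rw [lie0, map_smul, map_smul_eq_mul, norm_neg, Complex.norm_natCast, h0] at h1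
    have h3 := apply_nonneg p (j (w (n + 1)))
    have h4 : (0 : ℝ) ≤ n := Nat.cast_nonneg n
    push_cast at h1
    nlinarith
  have hd : p (j d) = 0 := by
    have h1 := hb d (w 0)
    have h2 : ⁅d, w 0⁆ = (-1 : ℂ) • d := by
      apply Subtype.ext
      change ⁅e (-1), e ((0 : ℕ) : ℤ)⁆ = (-1 : ℂ) • e (-1)
      rw [e_lie]
      simp
    rw [h2, map_smul, map_smul_eq_mul, norm_neg, norm_one, h0] at h1
    have h3 := apply_nonneg p (j d)
    linarith
  obtain ⟨x, hx⟩ := x
  induction hx using LieSubalgebra.lieSpan_induction with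
  | mem y hy =>
    simp only [gens, Set.mem_insert_iff, Set.mem_singleton_iff] at hy
    rcases hy with rfl | rfl | rfl | rfl
    · exact hd
    · exact h0
    · exact hw 0
    · exact hw 1
  | zero =>
    have : j (⟨0, W.zero_mem⟩ : W) = 0 := map_zero j
    rw [this, map_zero]
  | add x y hx hy ihx ihy =>
    have : j (⟨x + y, W.add_mem hx hy⟩ : W) = j (⟨x, hx⟩ : W) + j (⟨y, hy⟩ : W) :=
      map_add j (⟨x, hx⟩ : W) ⟨y, hy⟩
    rw [this]
    have h1 := map_add_le_add p (j (⟨x, hx⟩ : W)) (j (⟨y, hy⟩ : W))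
    rw [ihx, ihy, add_zero] at h1
    exact le_antisymm h1 (apply_nonneg p _)
  | smul c x hx ihx =>
    have : j (⟨c • x, W.smul_mem c hx⟩ : W) = c • j (⟨x, hx⟩ : W) :=
      map_smul j c (⟨x, hx⟩ : W)
    rw [this, map_smul_eq_mul, ihx, mul_zero]
  | lie x y hx hy ihx ihy =>
    have h1 := hb (⟨x, hx⟩ : W) ⟨y, hy⟩
    rw [ihx, ihy, mul_zero] at h1
    exact le_antisymm h1 (apply_nonneg p _)

theorem killed_aug (p : Seminorm ℂ (U W)) (hp : ∀ a b, p (a * b) ≤ p a * p b) (a : U W) :
    p (algebraMap ℂ (U W) (cu a) - a) = 0 := by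
  let P : Subalgebra ℂ (U W) :=
    { carrier := {a | p (algebraMap ℂ (U W) (cu a) - a) = 0}
      mul_mem' := fun {a b} ha hb => by
        have ha' : p (algebraMap ℂ (U W) (cu a) - a) = 0 := ha
        have hb' : p (algebraMap ℂ (U W) (cu b) - b) = 0 := hb
        change p (algebraMap ℂ (U W) (cu (a * b)) - a * b) = 0
        have h1 : algebraMap ℂ (U W) (cu (a * b)) - a * b =
            algebraMap ℂ (U W) (cu a) * (algebraMap ℂ (U W) (cu b) - b) +
              (algebraMap ℂ (U W) (cu a) - a) * b := by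
          rw [map_mul, map_mul, mul_sub, sub_mul]; abel
        rw [h1]
        refine le_antisymm ((map_add_le_add p _ _).trans ?_) (apply_nonneg p _)
        have h2 := hp (algebraMap ℂ (U W) (cu a)) (algebraMap ℂ (U W) (cu b) - b)
        have h3 := hp (algebraMap ℂ (U W) (cu a) - a) b
        rw [hb', mul_zero] at h2
        rw [ha', zero_mul] at h3
        linarith
      add_mem' := fun {a b} ha hb => by
        have ha' : p (algebraMap ℂ (U W) (cu a) - a) = 0 := ha
        have hb' : p (algebraMap ℂ (U W) (cu b) - b) = 0 := hb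
        change p (algebraMap ℂ (U W) (cu (a + b)) - (a + b)) = 0
        have h1 : algebraMap ℂ (U W) (cu (a + b)) - (a + b) =
            (algebraMap ℂ (U W) (cu a) - a) + (algebraMap ℂ (U W) (cu b) - b) := by
          rw [map_add, map_add]; abel
        rw [h1]
        refine le_antisymm ((map_add_le_add p _ _).trans ?_) (apply_nonneg p _)
        rw [ha', hb', add_zero]
      algebraMap_mem' := fun r => by
        change p (algebraMap ℂ (U W) (cu (algebraMap ℂ (U W) r)) - algebraMap ℂ (U W) r) = 0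
        rw [AlgHom.commutes]
        simp }
  refine uind P (fun x => ?_) a
  change p (algebraMap ℂ (U W) (cu (j x)) - j x) = 0
  rw [cu_j, map_zero, zero_sub, map_neg_eq_map, killed_all p hp]

theorem not_iso : IsEmpty (U W ≃ₐ[ℂ] ℂ) := ⟨fun g => by
  have h1 := killed ((normSeminorm ℂ ℂ).comp g.toLinearMap) (fun a b => by
    change ‖g (a * b)‖ ≤ ‖g a‖ * ‖g b‖
    rw [map_mul, norm_mul])
  have h2 : ‖g (j (w 0))‖ = 0 := h1
  rw [norm_eq_zero, map_eq_zero_iff g g.injective] at h2
  exact w0_ne h2⟩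

theorem result : ∃ (H₁ H₂ : Type) (_ : Ring H₁) (_ : HopfAlgebra ℂ H₁) (_ : Ring H₂)
    (_ : HopfAlgebra ℂ H₂), Algebra.FiniteType ℂ H₁ ∧ Algebra.FiniteType ℂ H₂ ∧
      IsEmpty (H₁ ≃ₐ[ℂ] H₂) ∧ EnvIso H₁ H₂ := by
  letI : HopfAlgebra ℂ (U W) := hopf
  refine ⟨U W, ℂ, inferInstance, hopf, inferInstance, inferInstance, ft, inferInstance, not_iso,
    envIso_of cu (Algebra.ofId ℂ (U W)) (fun a => io_eq fun p => killed_aug p.1 p.2 a)
      (fun b => congrArg io (cu.commutes b)) (fun a => ?_) (fun a => rfl)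
      (fun a => HopfAlgebra.counit_antipode (R := ℂ) a)⟩
  have h : (Algebra.TensorProduct.map (cu (L := W)) (cu (L := W))).comp (cm (L := W)) =
      (Bialgebra.comulAlgHom ℂ ℂ).comp (cu (L := W)) := by
    apply uext
    intro x
    simp [cm_j, cu_j]
  exact congrArg (fun g : U W →ₐ[ℂ] ℂ ⊗[ℂ] ℂ => g a) h

end Pool.Agent.Results.MP_e2f694_an.Counter
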